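import Pool.Agent.Helper7_GA.Stm3

/-! # Matrix units give an injective homomorphism -/

set_option autoImplicit false

open scoped Matrix.Norms.L2Operator ENNReal Matrix
open Pool.Agent.W659.EC Pool.Agent.Helper7_ND

noncomputable section

namespace Pool.Agent.H586W.MU

/-- the homomorphism given by matrix units -/
def mu {E : Type} [CStarAlgebra E] (F : FDA) (e : ∀ c : F.ι, F.n c → F.n c → E)
    (h1 : ∀ c i j, star (e c i j) = e c j i)
    (h2 : ∀ c i j k l, e c i j * e c k l = if j = k then e c i l else 0)
    (h3 : ∀ c c', c ≠ c' → ∀ i j k l, e c i j * e c' k l = 0) : F.alg →⋆ₙₐ[ℂ] E where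
  toFun y := ∑ c, ∑ i, ∑ j, y c i j • e c i j
  map_smul' := by
    intro m y
    simp only [Finset.smul_sum, smul_smul, MonoidHom.id_apply]
    rfl
  map_zero' := by
    simp
  map_add' := by
    intro x y
    simp only [Pi.add_apply, Matrix.add_apply, add_smul, Finset.sum_add_distrib]
  map_mul' := by
    intro x y
    rw [Finset.sum_mul_sum]
    refine Finset.sum_congr rfl fun c _ => ?_
    rw [Finset.sum_eq_single c]
    · rw [Finset.sum_mul_sum]
      refine Finset.sum_congr rfl fun i _ => ?_
      have e1 : ∀ k : F.n c, (∑ j, x c i j • e c i j) * (∑ l, y c k l • e c k l) =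
          ∑ l, (x c i k * y c k l) • e c i l := by
        intro k
        rw [Finset.sum_mul_sum, Finset.sum_comm]
        refine Finset.sum_congr rfl fun l _ => ?_
        rw [Finset.sum_eq_single k]
        · rw [smul_mul_smul_comm, h2, if_pos rfl]
        · intro j _ hj
          rw [smul_mul_smul_comm, h2, if_neg hj, smul_zero]
        · intro h
          exact absurd (Finset.mem_univ _) h
      rw [Finset.sum_congr rfl fun k _ => e1 k, Finset.sum_comm]
      refine Finset.sum_congr rfl fun l _ => ?_
      rw [← Finset.sum_smul]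
      rfl
    · intro c' _ hc'
      rw [Finset.sum_mul_sum]
      refine Finset.sum_eq_zero fun i _ => Finset.sum_eq_zero fun k _ => ?_
      rw [Finset.sum_mul_sum]
      refine Finset.sum_eq_zero fun j _ => Finset.sum_eq_zero fun l _ => ?_
      rw [smul_mul_smul_comm, h3 c c' (Ne.symm hc'), smul_zero]
    · intro h
      exact absurd (Finset.mem_univ _) h
  map_star' := by
    intro x
    rw [star_sum]
    refine Finset.sum_congr rfl fun c _ => ?_
    rw [Finset.sum_comm, star_sum]
    refine Finset.sum_congr rfl fun i _ => ?_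
    rw [star_sum]
    refine Finset.sum_congr rfl fun j _ => ?_
    rw [star_smul, h1]
    rfl

theorem MU {E : Type} [CStarAlgebra E] (F : FDA) (e : ∀ c : F.ι, F.n c → F.n c → E)
    (h1 : ∀ c i j, star (e c i j) = e c j i)
    (h2 : ∀ c i j k l, e c i j * e c k l = if j = k then e c i l else 0)
    (h3 : ∀ c c', c ≠ c' → ∀ i j k l, e c i j * e c' k l = 0)
    (h4 : ∀ c i, e c i i ≠ 0) :
    ∃ φ : F.alg →⋆ₙₐ[ℂ] E, Function.Injective φ ∧
      ∀ y, φ y = ∑ c, ∑ i, ∑ j, y c i j • e c i j := by
  refine ⟨mu F e h1 h2 h3, ?_, fun y => rfl⟩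
  have hφ : ∀ y, mu F e h1 h2 h3 y = ∑ c, ∑ i, ∑ j, y c i j • e c i j := fun y => rfl
  rw [injective_iff_map_eq_zero]
  intro y hy
  funext c
  ext i j
  have key : e c i i * (mu F e h1 h2 h3 y) * e c j i = y c i j • e c i i := by
    rw [hφ, Finset.mul_sum, Finset.sum_mul, Finset.sum_eq_single c]
    · rw [Finset.mul_sum, Finset.sum_mul, Finset.sum_eq_single i]
      · rw [Finset.mul_sum, Finset.sum_mul, Finset.sum_eq_single j]
        · rw [mul_smul_comm, smul_mul_assoc, h2, if_pos rfl, h2, if_pos rfl]
        · intro l _ hl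
          rw [mul_smul_comm, smul_mul_assoc, h2, if_pos rfl, h2, if_neg hl, smul_zero]
        · intro h
          exact absurd (Finset.mem_univ _) h
      · intro k _ hk
        rw [Finset.mul_sum, Finset.sum_mul]
        refine Finset.sum_eq_zero fun l _ => ?_
        rw [mul_smul_comm, h2, if_neg (Ne.symm hk), smul_zero, zero_mul]
      · intro h
        exact absurd (Finset.mem_univ _) h
    · intro c' _ hc'
      rw [Finset.mul_sum, Finset.sum_mul]
      refine Finset.sum_eq_zero fun k _ => ?_
      rw [Finset.mul_sum, Finset.sum_mul]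
      refine Finset.sum_eq_zero fun l _ => ?_
      rw [mul_smul_comm, h3 c c' (Ne.symm hc'), smul_zero, zero_mul]
    · intro h
      exact absurd (Finset.mem_univ _) h
  rw [hy, mul_zero, zero_mul] at key
  rcases smul_eq_zero.1 key.symm with h | h
  · exact h
  · exact absurd h (h4 c i)

end Pool.Agent.H586W.MU
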